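import Pool.Agent.H516R2.EQP2.CO
import Pool.Agent.H620R2.Gauge2.Defs

/-!
# The coding of NP questions with small certificates (helper628)
-/

set_option autoImplicit false
set_option linter.all false

namespace Pool.Agent.Y628

open Pool.Agent.NPC Pool.Agent.H622R2 Pool.Agent.H620R2.Gauge Finset H568R2 Pool.Agent.H676
  Pool.Agent.H516R2.EQP Pool.Agent.H516R2.EQP2 CC

/-- positive answers have small certificates -/
def HCer (hid : List Bool → Oracle → Bool) : Prop := ∀ u A, hid u A = true →
  ∃ S : Finset (List Bool), S.card ^ 2 < u.length ∧ (∀ z ∈ S, z.length ^ 2 < u.length) ∧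
    ∀ A' : Oracle, (∀ z ∈ S, A' z = A z) → hid u A' = true

open Classical in
/-- the answer to the coded question `u` -/
noncomputable def hidN (g : ℕ → Alg × Polynomial ℕ) (R : ℕ → Polynomial ℕ) (u : List Bool)
    (A : Oracle) : Bool :=
  if h : ∃ p : ℕ × List Bool, u = code R p.1 p.2 then
    @decide (NAcc (g h.choose.1).1 (g h.choose.1).2 A h.choose.2) (Classical.propDecidable _)
  else false

theorem hidN_code (g : ℕ → Alg × Polynomial ℕ) (R : ℕ → Polynomial ℕ) (e : ℕ)
    (x : List Bool) (A : Oracle) :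
    hidN g R (code R e x) A = true ↔ NAcc (g e).1 (g e).2 A x := by
  have h : ∃ p : ℕ × List Bool, code R e x = code R p.1 p.2 := ⟨(e, x), rfl⟩
  classical
  unfold hidN
  rw [dif_pos h, decide_eq_true_iff]
  obtain ⟨h1, h2⟩ := code_inj R h.choose_spec
  rw [← h1, ← h2]

/-- a polynomial bound for the number and the length of the questions -/
theorem hid_bound (M : Alg) (p : Polynomial ℕ) : ∃ b : Polynomial ℕ, ∀ x A, NAcc M p A x →
    ∃ S : Finset (List Bool), S.card ≤ b.eval x.length ∧ (∀ z ∈ S, z.length ≤ b.eval x.length) ∧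
      ∀ A' : Oracle, (∀ z ∈ S, A' z = A z) → NAcc M p A' x := by
  obtain ⟨qb, hqb⟩ := M.out_local
  refine ⟨(M.p + qb).comp (Polynomial.C 2 * p + Polynomial.C 1 + Polynomial.X), ?_⟩
  rintro x A ⟨w, hw, hM⟩
  have hl : (pairBits w x).length ≤
      (Polynomial.C 2 * p + Polynomial.C 1 + Polynomial.X : Polynomial ℕ).eval x.length := by
    rw [length_pairBits]
    simp only [Polynomial.eval_add, Polynomial.eval_mul, Polynomial.eval_C, Polynomial.eval_X]
    omega
  have h1 : M.p.eval (pairBits w x).length + qb.eval (pairBits w x).length ≤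
      ((M.p + qb).comp (Polynomial.C 2 * p + Polynomial.C 1 + Polynomial.X)).eval x.length := by
    rw [Polynomial.eval_comp, ← Polynomial.eval_add]
    exact eval_mono _ hl
  obtain ⟨Q, hQ1, hQ2, hQ3⟩ := hqb A (pairBits w x)
  refine ⟨Q, by omega, fun z hz => (hQ2 z hz).trans (by omega), fun A' hA' => ⟨w, hw, ?_⟩⟩
  rw [hQ3 A' hA', hM]

theorem HID : ∃ (hid : List Bool → Oracle → Bool) (C : List Bool → Bool), HCer hid ∧
    ∀ (A : Oracle) (L : Set (List Bool)), IsNP A L → ∃ g : List Bool → List Bool, PolyTime g ∧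
      ∀ x, C (g x) = true ∧ (x ∈ L ↔ hid (g x) A = true) := by
  obtain ⟨g, hg⟩ := CO_enum
  choose b hb using fun e : ℕ => hid_bound (g e).1 (g e).2
  set R : ℕ → Polynomial ℕ := fun e => (b e) ^ 2 with hR
  have hRe : ∀ e n, (R e).eval n = ((b e).eval n) ^ 2 := by
    intro e n
    rw [hR]
    simp only [Polynomial.eval_pow]
  classical
  refine ⟨hidN g R, fun u => decide (∃ p : ℕ × List Bool, u = code R p.1 p.2), ?_, ?_⟩
  · intro u A hA
    by_cases hu : ∃ p : ℕ × List Bool, u = code R p.1 p.2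
    · obtain ⟨⟨e, x⟩, rfl⟩ := hu
      simp only at hA ⊢
      rw [hidN_code] at hA
      obtain ⟨S, hS1, hS2, hS3⟩ := hb e x A hA
      have h1 := lt_length_code R e x
      rw [hRe] at h1
      refine ⟨S, lt_of_le_of_lt (Nat.pow_le_pow_left hS1 2) h1,
        fun z hz => lt_of_le_of_lt (Nat.pow_le_pow_left (hS2 z hz) 2) h1, fun A' hA' => ?_⟩
      rw [hidN_code]
      exact hS3 A' hA'
    · unfold hidN at hA
      rw [dif_neg hu] at hA
      exact absurd hA (by simp)
  · rintro A L ⟨V, p, ⟨M, hM⟩, hL⟩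
    obtain ⟨e, he⟩ := hg (M, p)
    refine ⟨fun x => code R e x, polyTime_of_poly_list (poly_code R e), fun x => ?_⟩
    refine ⟨decide_eq_true ⟨(e, x), rfl⟩, ?_⟩
    rw [hidN_code, he, hL]
    unfold NAcc
    refine exists_congr fun w => and_congr_right fun _ => ?_
    rw [hM]
    simp

/-- the hidden answers depend on short strings only -/
theorem HCer.loc {hid : List Bool → Oracle → Bool} (h : HCer hid) (u : List Bool) (A A' : Oracle)
    (hA : ∀ z : List Bool, z.length ^ 2 < u.length → A z = A' z) : hid u A = hid u A' := by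
  rw [Bool.eq_iff_iff]
  constructor
  · intro h1
    obtain ⟨S, _, h2, h3⟩ := h u A h1
    exact h3 A' fun z hz => (hA z (h2 z hz)).symm
  · intro h1
    obtain ⟨S, _, h2, h3⟩ := h u A' h1
    exact h3 A fun z hz => hA z (h2 z hz)

end Pool.Agent.Y628
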